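import Pool.Agent.Helper2.PC.Final8
import Pool.Agent.Helper14.ND.Fields2
import Pool.Agent.Helper29.PL.Thr8

/-!
# Positive words: the threshold `D (n + 1) ^ 6`, and all coefficients above `10 ^ 43 (n + 1) ^ 3 log L`
-/

set_option autoImplicit false

namespace Pool.Agent.Helper2.PC

open Polynomial Pool.Agent.Helper76.Conway.Top Pool.Agent.Helper99.ZB Pool.Agent.Helper57.EV Pool.Agent.Helper10.PC
  Pool.Agent.Helper29.PL

variable {G : ℕ → Type} [∀ n, Group (G n)] {sg : ∀ n, ℕ → G n} {N : ∀ n, G n → ℤ[X]}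

/-- distance from the positive axis -/
noncomputable def b6 (n : ℕ) : ℝ := 1 / (80 * ((n : ℝ) + 1))

theorem hp6 (h : Mk G sg N) {n : ℕ} {w : List ℕ} (hw : ∀ a ∈ w, a < n) (hf : ∀ a < n, a ∈ w) (hL : 3 ≤ w.length)
    (hLn : 4 * n ≤ w.length) : HP (b6 n) kap (en n) (EE n w.length) w.length (half (N n (V (sg n) w))) := by
  have H := hp_of h hw hf hL hLn
  exact { toNice := H.toNice
          dist := fun ρ hρ r hr => Pool.Agent.Helper14.ND.dist_pos2 h hw hf hρ hr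
          near := H.near
          far := H.far
          lo := H.lo
          hi := H.hi
          top := H.top }

theorem adm6 {n L : ℕ} (hL : 3 ≤ L) : AdmP (b6 n) kap (en n) (EE n L) := by
  have H := adm_of (n := n) hL
  have hn : (0 : ℝ) ≤ n := Nat.cast_nonneg n
  refine ⟨?_, ?_, H.hκ, H.hκ1, H.hε, H.hε1, H.hE⟩
  · unfold b6; positivity
  · unfold b6
    rw [div_le_one (by positivity)]
    linarith

theorem kap_b6 (n : ℕ) : kap * b6 n = (88000000 * ((n : ℝ) + 1))⁻¹ := by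
  unfold b6 kap
  field_simp
  norm_num

/-- the error term is large enough -/
theorem exp_EE {n L : ℕ} (hL : 88000000 * (n + 1) ≤ L) : 1 ≤ kap * b6 n * Real.exp (EE n L) := by
  have hn : (0 : ℝ) ≤ n := Nat.cast_nonneg n
  have hLR : (88000000 : ℝ) * ((n : ℝ) + 1) ≤ L := by exact_mod_cast hL
  have hL1 : (1 : ℝ) ≤ L := by nlinarith
  have hE : (L : ℝ) ≤ Real.exp (EE n L) := by
    have h2 : Real.log L ≤ EE n L := by
      unfold EE
      have h3 : 0 ≤ Real.log L := Real.log_nonneg hL1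
      nlinarith
    calc (L : ℝ) = Real.exp (Real.log L) := (Real.exp_log (by linarith)).symm
      _ ≤ _ := Real.exp_le_exp.2 h2
  rw [kap_b6, inv_mul_eq_div, le_div_iff₀ (by positivity), one_mul]
  linarith

/-- **All coefficients of long words.** -/
theorem thr6 (h : Mk G sg N) {n : ℕ} {w : List ℕ} (hw : ∀ a ∈ w, a < n) (hf : ∀ a < n, a ∈ w)
    (hlen : 10 ^ 60 * (n + 1) ^ 6 ≤ w.length) (k : ℕ) :
    (N n (V (sg n) w)).coeff (k + 4) * (N n (V (sg n) w)).coeff k ≤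
      (N n (V (sg n) w)).coeff (k + 2) ^ 2 := by
  have h1 : n + 1 ≤ (n + 1) ^ 6 := Nat.le_self_pow (by norm_num) _
  have hbig : 88000000 * (n + 1) ≤ w.length := by
    calc 88000000 * (n + 1) ≤ 10 ^ 60 * (n + 1) ^ 6 := Nat.mul_le_mul (by norm_num) h1
      _ ≤ w.length := hlen
  have hL3 : 3 ≤ w.length := by omega
  refine coeff_of h hw hf (fun k hk => ?_) k
  have hn : (0 : ℝ) ≤ n := Nat.cast_nonneg n
  refine corePoly8 (adm6 hL3) (exp_EE hbig) (hp6 h hw hf hL3 (by omega)) ?_ hk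
  have h2 := arith8 (a := 6) (by norm_num) (by norm_num) (C₁ := 10 ^ 32 * (12 * 1100000 ^ 3 * 51200)) (D := 10 ^ 60)
    (by positivity) (by norm_num) (by norm_num) (m := (n : ℝ) + 1) (L := w.length) (by linarith) (by exact_mod_cast hlen)
  have e1 : (w.length : ℝ) * (kap ^ 3 * b6 n ^ 2 * √(en n)) =
      w.length / (1100000 ^ 3 * 51200 * ((n : ℝ) + 1) ^ 4) := by
    rw [sqrt_en]
    unfold kap b6
    field_simp
    norm_num
  rw [e1, le_div_iff₀ (by positivity)]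
  unfold EE
  refine le_trans (le_of_eq ?_) h2
  have e2 : 6 - 1 = 5 := rfl
  rw [e2]
  ring

/-- **All coefficients above `10 ^ 43 (n + 1) ^ 3 log L`.** -/
theorem thrHigh (h : Mk G sg N) {n : ℕ} {w : List ℕ} (hw : ∀ a ∈ w, a < n) (hf : ∀ a < n, a ∈ w)
    (hlen : 88000000 * (n + 1) ≤ w.length) (k : ℕ)
    (hk : ((N n (V (sg n) w)).natTrailingDegree : ℝ) + 10 ^ 43 * ((n : ℝ) + 1) ^ 3 * Real.log w.length ≤ k + 2) :
    (N n (V (sg n) w)).coeff k * (N n (V (sg n) w)).coeff (k + 4) ≤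
      (N n (V (sg n) w)).coeff (k + 2) ^ 2 := by
  have hn : (0 : ℝ) ≤ n := Nat.cast_nonneg n
  have hL3 : 3 ≤ w.length := by omega
  have hL1 : (1 : ℝ) ≤ w.length := by exact_mod_cast (show 1 ≤ w.length by omega)
  have hlog : 0 ≤ Real.log w.length := Real.log_nonneg hL1
  obtain ⟨p, hp⟩ : ∃ p, p = N n (V (sg n) w) := ⟨_, rfl⟩
  obtain ⟨h0, hpar, -, -, -, -, -⟩ := word h hw hf hp
  rw [← hp] at hk ⊢
  have hpar' : ∀ j k, p.coeff j ≠ 0 → p.coeff k ≠ 0 → j % 2 = k % 2 := by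
    intro i j hi hj
    have h1 : ¬ (i + (w.length - n)) % 2 = 1 := fun h => hi (hpar i h)
    have h2 : ¬ (j + (w.length - n)) % 2 = 1 := fun h => hj (hpar j h)
    omega
  obtain ⟨d, hd⟩ : ∃ d, d = p.natTrailingDegree := ⟨_, rfl⟩
  rw [← hd] at hk
  by_cases h1 : k < d
  · rw [coeff_eq_zero_of_lt_natTrailingDegree (hd ▸ h1), zero_mul]
    exact sq_nonneg _
  by_cases h2 : (k + d) % 2 = 1
  · rw [Pool.Agent.Helper57.EV2.par_trailing hpar' h0 k (hd ▸ h2), zero_mul]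
    exact sq_nonneg _
  obtain ⟨j, hj⟩ : ∃ j, k = d + 2 * j := ⟨(k - d) / 2, by omega⟩
  have hH := hp6 h hw hf hL3 (by omega)
  rw [← hp] at hH
  have h3 := high8 (adm6 hL3) (exp_EE hlen) hH (k := j + 1) (by
    have e1 : kap ^ 3 * b6 n ^ 2 = 1 / (1100000 ^ 3 * 6400 * ((n : ℝ) + 1) ^ 2) := by
      unfold kap b6
      field_simp
      norm_num
    rw [e1, mul_one_div, le_div_iff₀ (by positivity)]
    unfold EE
    have hk' : (k : ℝ) = d + 2 * j := by exact_mod_cast hj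
    rw [hk'] at hk
    push_cast
    have h4 : 0 ≤ ((n : ℝ) + 1) ^ 3 * Real.log w.length := by positivity
    calc 10 ^ 19 * (12 * (n + 1) * Real.log w.length) * (1100000 ^ 3 * 6400 * ((n : ℝ) + 1) ^ 2) =
        10 ^ 19 * (12 * (1100000 ^ 3 * 6400)) * (((n : ℝ) + 1) ^ 3 * Real.log w.length) := by ring
      _ ≤ 10 ^ 43 / 2 * (((n : ℝ) + 1) ^ 3 * Real.log w.length) := mul_le_mul_of_nonneg_right (by norm_num) h4
      _ = 10 ^ 43 * ((n : ℝ) + 1) ^ 3 * Real.log w.length / 2 := by ring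
      _ ≤ j + 1 := by linarith)
  rw [half_coeff, half_coeff, half_coeff, ← hd] at h3
  have e1 : d + 2 * (j + 1 - 1) = k := by omega
  have e2 : d + 2 * (j + 1 + 1) = k + 4 := by omega
  have e3 : d + 2 * (j + 1) = k + 2 := by omega
  rw [e1, e2, e3] at h3
  exact_mod_cast h3

end Pool.Agent.Helper2.PC
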