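import Mathlib

/-!
# Dyadic sums over points which are few near `0`
-/

set_option autoImplicit false

namespace Pool.Agent.Helper2.PC

open Finset

theorem pt_dyadic (m : ℕ) {x : ℝ} (hx : 0 < x) : ∀ J : ℕ, 1 / (4 * 2 ^ (J + 1)) < x → x ≤ 1 / 4 →
    (1 / x) ^ m ≤ 2 ^ m * ∑ j ∈ range (J + 1), (if x ≤ 1 / (4 * 2 ^ j) then ((4 * 2 ^ j : ℝ)) ^ m else 0) := by
  intro J
  induction J with
  | zero =>
    intro h1 h2
    have h3 : x ≤ 1 / (4 * 2 ^ 0) := by norm_num; linarith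
    rw [sum_range_one, if_pos h3, ← mul_pow]
    refine pow_le_pow_left₀ (by positivity) ?_ m
    rw [div_le_iff₀ hx]
    rw [div_lt_iff₀ (by positivity)] at h1
    norm_num at h1 ⊢
    linarith
  | succ J ih =>
    intro h1 h2
    rw [sum_range_succ]
    have hnn : ∀ j ∈ range (J + 1), (0 : ℝ) ≤ (if x ≤ 1 / (4 * 2 ^ j) then ((4 * 2 ^ j : ℝ)) ^ m else 0) := by
      intro j _
      split_ifs <;> positivity
    by_cases h3 : x ≤ 1 / (4 * 2 ^ (J + 1))
    · rw [if_pos h3, mul_add, ← mul_pow]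
      have h4 : (1 / x) ^ m ≤ (2 * (4 * 2 ^ (J + 1))) ^ m := by
        refine pow_le_pow_left₀ (by positivity) ?_ m
        rw [div_le_iff₀ hx]
        rw [div_lt_iff₀ (by positivity)] at h1
        have e : (2 : ℝ) ^ (J + 1 + 1) = 2 * 2 ^ (J + 1) := by ring
        rw [e] at h1
        linarith
      have h5 := sum_nonneg hnn
      have h6 : 0 ≤ 2 ^ m * ∑ j ∈ range (J + 1), (if x ≤ 1 / (4 * 2 ^ j) then ((4 * 2 ^ j : ℝ)) ^ m else 0) := by positivity
      linarith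
    · rw [if_neg h3, add_zero]
      exact ih (not_le.1 h3) h2

open Classical in
theorem sum_dyadic (m : ℕ) (f : ℂ → ℝ) (S : Multiset ℂ) (J : ℕ) (hS : ∀ ρ ∈ S, 1 / (4 * 2 ^ (J + 1)) < f ρ) :
    (S.map fun ρ => if f ρ ≤ 1 / 4 then (1 / f ρ) ^ m else 0).sum ≤
      2 ^ m * ∑ j ∈ range (J + 1), (4 * 2 ^ j : ℝ) ^ m * ((S.filter fun ρ => f ρ ≤ 1 / (4 * 2 ^ j)).card : ℝ) := by
  induction S using Multiset.induction with
  | empty => simp
  | cons ρ S ih =>
    rw [Multiset.map_cons, Multiset.sum_cons]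
    have h1 := ih fun ρ' h => hS ρ' (Multiset.mem_cons_of_mem h)
    have h2 := hS ρ (Multiset.mem_cons_self ρ S)
    have hpos : 0 < f ρ := lt_trans (by positivity) h2
    have h3 : (if f ρ ≤ 1 / 4 then (1 / f ρ) ^ m else 0) ≤
        2 ^ m * ∑ j ∈ range (J + 1), (if f ρ ≤ 1 / (4 * 2 ^ j) then ((4 * 2 ^ j : ℝ)) ^ m else 0) := by
      split_ifs with h
      · exact pt_dyadic m hpos J h2 h
      · refine mul_nonneg (by positivity) (sum_nonneg fun j _ => ?_)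
        split_ifs <;> positivity
    refine (add_le_add h3 h1).trans (le_of_eq ?_)
    rw [← mul_add, ← sum_add_distrib]
    congr 1
    refine sum_congr rfl fun j _ => ?_
    by_cases h : f ρ ≤ 1 / (4 * 2 ^ j)
    · rw [if_pos h, Multiset.filter_cons_of_pos (p := fun ρ => f ρ ≤ 1 / (4 * 2 ^ j)) S h, Multiset.card_cons]
      push_cast
      ring
    · rw [if_neg h, Multiset.filter_cons_of_neg (p := fun ρ => f ρ ≤ 1 / (4 * 2 ^ j)) S h, zero_add]

theorem geom_le (a : ℝ) (ha : 2 ≤ a) : ∀ J : ℕ, ∑ j ∈ range (J + 1), a ^ j ≤ 2 * a ^ J := by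
  intro J
  induction J with
  | zero => rw [sum_range_one, pow_zero]; norm_num
  | succ J ih =>
    rw [sum_range_succ]
    have h1 : 0 ≤ a ^ J := by positivity
    have h2 : a ^ (J + 1) = a * a ^ J := by ring
    have h3 : 2 * a ^ J ≤ a ^ (J + 1) := by
      rw [h2]
      nlinarith
    linarith

theorem geom_half : ∀ J : ℕ, ∑ j ∈ range (J + 1), (1 / 2 : ℝ) ^ j ≤ 2 - (1 / 2) ^ J := by
  intro J
  induction J with
  | zero => norm_num
  | succ J ih =>
    rw [sum_range_succ, pow_succ]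
    linarith

open Classical in
/-- cubes -/
theorem sum_cube (f : ℂ → ℝ) (S : Multiset ℂ) {b a y : ℝ} (hb : 0 < b) (hb1 : b ≤ 1) (ha : 0 ≤ a) (hy : 0 ≤ y)
    (hS : ∀ ρ ∈ S, b ≤ f ρ)
    (hc : ∀ δ : ℝ, 0 < δ → δ ≤ 1 / 4 → ((S.filter fun ρ => f ρ ≤ δ).card : ℝ) ≤ a + y * δ ^ 2) :
    (S.map fun ρ => if f ρ ≤ 1 / 4 then (1 / f ρ) ^ 3 else 0).sum ≤ 1024 * a / b ^ 3 + 64 * y / b ∧
    (S.map fun ρ => if f ρ ≤ 1 / 4 then (1 / f ρ) ^ 1 else 0).sum ≤ 16 * a / b + y := by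
  have hb2 : 1 ≤ 1 / b := by
    rw [le_div_iff₀ hb]
    linarith
  obtain ⟨J, hJ1, hJ2⟩ := exists_nat_pow_near (x := 1 / b) (y := (2 : ℝ)) hb2 (by norm_num)
  have hS' : ∀ ρ ∈ S, 1 / (4 * 2 ^ (J + 1)) < f ρ := by
    intro ρ hρ
    refine lt_of_lt_of_le ?_ (hS ρ hρ)
    rw [div_lt_iff₀ (by positivity)]
    rw [div_lt_iff₀ hb] at hJ2
    nlinarith
  have hcj : ∀ j : ℕ, ((S.filter fun ρ => f ρ ≤ 1 / (4 * 2 ^ j)).card : ℝ) ≤ a + y * (1 / (4 * 2 ^ j)) ^ 2 := by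
    intro j
    refine hc _ (by positivity) ?_
    apply one_div_le_one_div_of_le (by norm_num)
    have : (1 : ℝ) ≤ 2 ^ j := one_le_pow₀ (by norm_num)
    linarith
  constructor
  · refine (sum_dyadic 3 f S J hS').trans ?_
    have h1 : ∑ j ∈ range (J + 1), (4 * 2 ^ j : ℝ) ^ 3 * ((S.filter fun ρ => f ρ ≤ 1 / (4 * 2 ^ j)).card : ℝ) ≤
        ∑ j ∈ range (J + 1), (64 * a * 8 ^ j + 4 * y * 2 ^ j) := by
      refine sum_le_sum fun j _ => ?_
      refine (mul_le_mul_of_nonneg_left (hcj j) (by positivity)).trans (le_of_eq ?_)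
      have e : (8 : ℝ) ^ j = (2 ^ j) ^ 3 := by
        rw [← pow_mul, mul_comm, pow_mul]
        norm_num
      rw [e]
      field_simp
      ring
    have h2 : ∑ j ∈ range (J + 1), (64 * a * 8 ^ j + 4 * y * 2 ^ j) ≤ 128 * a * 8 ^ J + 8 * y * 2 ^ J := by
      rw [sum_add_distrib, ← mul_sum, ← mul_sum]
      have g1 := geom_le 8 (by norm_num) J
      have g2 := geom_le 2 le_rfl J
      have g3 := mul_le_mul_of_nonneg_left g1 (by positivity : 0 ≤ 64 * a)
      have g4 := mul_le_mul_of_nonneg_left g2 (by positivity : 0 ≤ 4 * y)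
      linarith
    have h3 : (8 : ℝ) ^ J ≤ 1 / b ^ 3 := by
      have e : (8 : ℝ) ^ J = (2 ^ J) ^ 3 := by
        rw [← pow_mul, mul_comm, pow_mul]
        norm_num
      rw [e, ← one_div_pow]
      exact pow_le_pow_left₀ (by positivity) hJ1 3
    have h4 : 128 * a * 8 ^ J ≤ 128 * a * (1 / b ^ 3) := mul_le_mul_of_nonneg_left h3 (by positivity)
    have h5 : 8 * y * 2 ^ J ≤ 8 * y * (1 / b) := mul_le_mul_of_nonneg_left hJ1 (by positivity)
    calc _ ≤ 2 ^ 3 * (128 * a * (1 / b ^ 3) + 8 * y * (1 / b)) := by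
          refine mul_le_mul_of_nonneg_left ?_ (by positivity)
          linarith
      _ = _ := by ring
  · refine (sum_dyadic 1 f S J hS').trans ?_
    have h1 : ∑ j ∈ range (J + 1), (4 * 2 ^ j : ℝ) ^ 1 * ((S.filter fun ρ => f ρ ≤ 1 / (4 * 2 ^ j)).card : ℝ) ≤
        ∑ j ∈ range (J + 1), (4 * a * 2 ^ j + y / 4 * (1 / 2) ^ j) := by
      refine sum_le_sum fun j _ => ?_
      refine (mul_le_mul_of_nonneg_left (hcj j) (by positivity)).trans (le_of_eq ?_)
      rw [pow_one, show (1 / 2 : ℝ) ^ j = 1 / 2 ^ j from one_div_pow 2 j]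
      field_simp
    have h2 : ∑ j ∈ range (J + 1), (4 * a * 2 ^ j + y / 4 * (1 / 2) ^ j) ≤ 8 * a * 2 ^ J + y / 2 := by
      rw [sum_add_distrib, ← mul_sum, ← mul_sum]
      have g2 := geom_le 2 le_rfl J
      have g1 := geom_half J
      have g0 : (0 : ℝ) ≤ (1 / 2) ^ J := by positivity
      have g3 := mul_le_mul_of_nonneg_left g2 (by positivity : 0 ≤ 4 * a)
      have g4 := mul_le_mul_of_nonneg_left (show ∑ j ∈ range (J + 1), (1 / 2 : ℝ) ^ j ≤ 2 by linarith) (by positivity : 0 ≤ y / 4)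
      linarith
    have h4 : 8 * a * 2 ^ J ≤ 8 * a * (1 / b) := mul_le_mul_of_nonneg_left hJ1 (by positivity)
    calc _ ≤ 2 ^ 1 * (8 * a * (1 / b) + y / 2) := by
          refine mul_le_mul_of_nonneg_left ?_ (by positivity)
          linarith
      _ = _ := by ring

end Pool.Agent.Helper2.PC
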