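import Pool.Agent.Helper2.PC.Bulk8
import Pool.Agent.Helper13.PC.Core8
import Pool.Agent.Helper13.PC.Jensen

/-!
# The core with explicit constants: all coefficients for long words, and the high range for every length
-/

set_option autoImplicit false

namespace Pool.Agent.Helper2.PC

open Polynomial EVC Pool.Agent.Helper10.PC

open Classical in
theorem cnt8 {b κ ε E : ℝ} {L : ℕ} {P : ℝ[X]} (hA : AdmP b κ ε E) (h : HP b κ ε E L P) {r : ℝ} (hr : 0 < r) (δ : ℝ)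
    (hδ : 0 < δ) (hδ4 : δ ≤ 1 / 4) :
    (((Z P).filter (fun ρ => ‖(r : ℂ) - ρ‖ ≤ δ * r)).card : ℝ) ≤ 4 * E + L * √r * δ ^ 2 := by
  have h1 := Pool.Agent.Helper13.PC.near_cnt hA.hκ.le h (zero_le_one.trans hA.hE) hr hδ hδ4
  exact h1

/-- **The core.** -/
theorem corePoly8 {b κ ε E : ℝ} (hA : AdmP b κ ε E) (hE1 : 1 ≤ κ * b * Real.exp E) {L : ℕ} {P : ℝ[X]}
    (h : HP b κ ε E L P) (hL : 10 ^ 32 * E ≤ L * (κ ^ 3 * b ^ 2 * √ε)) {k : ℕ} (hk : 1 ≤ k) :
    P.coeff (k - 1) * P.coeff (k + 1) ≤ P.coeff k ^ 2 := by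
  classical
  refine Pool.Agent.Helper13.PC.corePoly8_of ?_ ?_ hA hE1 h hL hk
  · intro b κ ε E hA hE1 L P h r hr h6 hy k hk hmean
    exact bulk8_of hA hE1 h hr h6 (cnt8 hA h hr) hy hk hmean
  · intro b κ ε E hA L P h r hr _
    exact mean_le_of hA h hr (cnt8 hA h hr)

/-- **The high range**: no condition on `L`. -/
theorem high8 {b κ ε E : ℝ} (hA : AdmP b κ ε E) (hE1 : 1 ≤ κ * b * Real.exp E) {L : ℕ} {P : ℝ[X]}
    (h : HP b κ ε E L P) {k : ℕ} (hk : 10 ^ 19 * E ≤ k * (κ ^ 3 * b ^ 2)) :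
    P.coeff (k - 1) * P.coeff (k + 1) ≤ P.coeff k ^ 2 := by
  classical
  have hb := hA.hb
  have hb1 := hA.hb1
  have hκ := hA.hκ
  have hκ1 := hA.hκ1
  have hE := hA.hE
  have hL0 : (0 : ℝ) ≤ L := Nat.cast_nonneg L
  obtain ⟨q, hq⟩ : ∃ q, q = κ ^ 3 * b ^ 2 := ⟨_, rfl⟩
  have hq0 : 0 < q := by rw [hq]; positivity
  have hq1 : q ≤ 1 := by
    rw [hq]
    exact mul_le_one₀ (pow_le_one₀ hκ.le hκ1) (by positivity) (pow_le_one₀ hb.le hb1)
  have hqb : q ≤ b := by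
    rw [hq]
    calc κ ^ 3 * b ^ 2 ≤ 1 * b ^ 2 :=
          mul_le_mul_of_nonneg_right (pow_le_one₀ hκ.le hκ1) (by positivity)
      _ = b * b := by ring
      _ ≤ b * 1 := mul_le_mul_of_nonneg_left hb1 hb.le
      _ = b := mul_one b
  rw [← hq] at hk
  obtain ⟨T, hT⟩ : ∃ T, T = 10 ^ 17 * E / q := ⟨_, rfl⟩
  have hTq : T * q = 10 ^ 17 * E := by
    rw [hT]
    field_simp
  have hT0 : 0 < T := by rw [hT]; positivity
  have hkT : 100 * T ≤ k := by
    have h1 : 100 * T * q ≤ k * q := by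
      calc 100 * T * q = 100 * (T * q) := by ring
        _ = 10 ^ 19 * E := by rw [hTq]; ring
        _ ≤ k * q := hk
    exact le_of_mul_le_mul_right h1 hq0
  have hTE2 : 100 * E / b ≤ T := by
    rw [div_le_iff₀ hb]
    have h1 : T * q ≤ T * b := mul_le_mul_of_nonneg_left hqb hT0.le
    have h2 : 100 * E ≤ 10 ^ 17 * E := mul_le_mul_of_nonneg_right (by norm_num) (by linarith)
    linarith
  have hk1 : 1 ≤ k := by
    rw [Nat.one_le_iff_ne_zero]
    rintro rfl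
    rw [Nat.cast_zero] at hkT
    linarith
  by_cases hk2 : (P.natDegree : ℝ) ≤ k + L / 148
  · exact h.top k hk1 hk2
  push Not at hk2
  have hTL1 : T ≤ L := by
    have h1 : (2 * P.natDegree : ℝ) ≤ L := by exact_mod_cast h.deg
    linarith
  have hL' : (0 : ℝ) < L := hT0.trans_le hTL1
  have hr0 : 0 < (T / L) ^ 2 := by positivity
  have hm : mean P ((T / L) ^ 2) ≤ k := by
    have h1 := mean_le_of hA h hr0 (cnt8 hA h hr0)
    rw [Real.sqrt_sq (by positivity)] at h1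
    have h2 : (L : ℝ) * (T / L) = T := by field_simp
    rw [h2] at h1
    linarith
  obtain ⟨r, hr0, hr6, hTr, hmr⟩ := Pool.Agent.Helper13.PC.exists_r8 h hT0 hTL1 hm hk2
  refine (bulk8_of hA hE1 h hr0 hr6 (cnt8 hA h hr0) ?_ hk1 hmr).le
  rw [← hq, ← hTq]
  exact mul_le_mul_of_nonneg_right hTr hq0.le

end Pool.Agent.Helper2.PC
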